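import Pool.Agent.T2H17.CX.VarF
import Pool.Agent.T2H98.RT.All

/-! High moments in `t` for almost all Dirichlet characters. -/

set_option autoImplicit false

open MeasureTheory Filter Topology Finset

namespace Pool.Agent.T2H17.CX

open Pool.Agent.T2H98.RT (A gam vLIM)

theorem main (k : ℕ) (hk : 1 ≤ k) (ε η : ℝ) (hε : 0 < ε) (hη : 0 < η) : ∃ C : ℝ, 0 < C ∧ ∃ N₀ : ℕ,
    ∀ (N : ℕ) (T : ℝ) (q : ℕ), q.Prime → N₀ ≤ N → 1 ≤ T → N ^ (2 * k) < q →
    ({χ : DirichletCharacter ℂ q | η * Real.log N ^ (k ^ 2) <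
      |J (fun n => χ (n : ZMod q)) k N T - gam k * Real.log N ^ (k ^ 2)|}.ncard : ℝ) ≤ C * (N : ℝ) ^ ε / T * q := by
  classical
  obtain ⟨C, hC, hvar⟩ := VARF k ε hk hε
  have hev : ∀ᶠ N : ℕ in atTop, |A k N / Real.log N ^ (k ^ 2) - gam k| < η / 2 := by
    have := (Metric.tendsto_nhds.mp (vLIM k hk)) (η / 2) (by positivity)
    filter_upwards [this] with N hN
    rwa [Real.dist_eq] at hN
  obtain ⟨N₂, hN₂⟩ := eventually_atTop.mp hev
  refine ⟨4 / η ^ 2 * C, by positivity, max N₂ 3, ?_⟩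
  intro N T q hq hN hT hNq
  have : Fact q.Prime := ⟨hq⟩
  have hN2 : N₂ ≤ N := (le_max_left _ _).trans hN
  have hN3 : 3 ≤ N := (le_max_right _ _).trans hN
  have hfam := famChar q (N ^ k) (by rw [← pow_mul, mul_comm k 2]; exact hNq)
  have hv := hvar N T (by omega) hT _ _ hfam
  have hL1 : 1 ≤ Real.log N ^ (k ^ 2) := by
    apply one_le_pow₀
    rw [← Real.log_exp 1]
    apply Real.log_le_log (Real.exp_pos 1)
    have : Real.exp 1 < 3 := lt_trans Real.exp_one_lt_d9 (by norm_num)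
    have h3N : (3 : ℝ) ≤ N := by exact_mod_cast hN3
    linarith
  have hLpos : 0 < Real.log N ^ (k ^ 2) := by linarith
  set L : ℝ := Real.log N ^ (k ^ 2) with hL
  have hA : |A k N - gam k * L| ≤ η / 2 * L := by
    have h5 := (hN₂ N hN2).le
    have h6 : A k N - gam k * L = (A k N / L - gam k) * L := by
      field_simp
    rw [h6, abs_mul, abs_of_pos hLpos]
    gcongr
  set F : Finset (DirichletCharacter ℂ q) := Finset.univ.filter (fun χ : DirichletCharacter ℂ q =>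
    η * L < |J (fun n => χ (n : ZMod q)) k N T - gam k * L|) with hF
  have hcard : ({χ : DirichletCharacter ℂ q | η * L < |J (fun n => χ (n : ZMod q)) k N T - gam k * L|}.ncard : ℝ) =
      (F.card : ℝ) := by
    rw [← Set.ncard_coe_finset F]
    congr 2
    ext χ
    simp [hF]
  rw [hcard]
  have hbad : ∀ χ ∈ F, (η / 2) ^ 2 ≤ (J (fun n => χ (n : ZMod q)) k N T - A k N) ^ 2 := by
    intro χ hχ
    rw [hF, Finset.mem_filter] at hχ
    have h1 : η / 2 ≤ |J (fun n => χ (n : ZMod q)) k N T - A k N| := by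
      have h2 : |J (fun n => χ (n : ZMod q)) k N T - gam k * L| ≤
          |J (fun n => χ (n : ZMod q)) k N T - A k N| + |A k N - gam k * L| := by
        have : J (fun n => χ (n : ZMod q)) k N T - gam k * L =
          (J (fun n => χ (n : ZMod q)) k N T - A k N) + (A k N - gam k * L) := by ring
        rw [this]
        exact abs_add_le _ _
      nlinarith [hχ.2]
    rw [← sq_abs (J (fun n => χ (n : ZMod q)) k N T - A k N)]
    exact pow_le_pow_left₀ (by positivity) h1 2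
  have h3 : (F.card : ℝ) * (η / 2) ^ 2 ≤ ∑ χ : DirichletCharacter ℂ q, (J (fun n => χ (n : ZMod q)) k N T - A k N) ^ 2 := by
    calc (F.card : ℝ) * (η / 2) ^ 2 = ∑ χ ∈ F, (η / 2) ^ 2 := by rw [Finset.sum_const, nsmul_eq_mul]
      _ ≤ ∑ χ ∈ F, (J (fun n => χ (n : ZMod q)) k N T - A k N) ^ 2 := Finset.sum_le_sum hbad
      _ ≤ _ := Finset.sum_le_sum_of_subset_of_nonneg (Finset.filter_subset _ _) (fun _ _ _ => sq_nonneg _)
  have hphi : (Fintype.card (DirichletCharacter ℂ q) : ℝ) ≤ q := by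
    have : Fintype.card (DirichletCharacter ℂ q) = q.totient := by
      rw [← DirichletCharacter.card_eq_totient_of_hasEnoughRootsOfUnity ℂ q, Nat.card_eq_fintype_card]
    rw [this]
    exact_mod_cast Nat.totient_le q
  have hN0 : (0 : ℝ) ≤ (N : ℝ) ^ ε := by positivity
  have h4 : (F.card : ℝ) * (η / 2) ^ 2 ≤ q * (C * (N : ℝ) ^ ε / T) :=
    h3.trans (hv.trans (mul_le_mul_of_nonneg_right hphi (by positivity)))
  have h5 : (F.card : ℝ) = 4 / η ^ 2 * ((F.card : ℝ) * (η / 2) ^ 2) := by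
    field_simp
    ring
  rw [h5]
  calc 4 / η ^ 2 * ((F.card : ℝ) * (η / 2) ^ 2) ≤ 4 / η ^ 2 * (q * (C * (N : ℝ) ^ ε / T)) := by gcongr
    _ = 4 / η ^ 2 * C * (N : ℝ) ^ ε / T * q := by ring

end Pool.Agent.T2H17.CX
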