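import Pool.Agent.T2H98.RT.VAR1
import Pool.Agent.T2H98.RT.PW
import Pool.Agent.T2H98.RT.KAP

/-! High moments in `t` for almost all Dirichlet characters: the variance. -/

set_option autoImplicit false

open MeasureTheory Filter Topology Finset

namespace Pool.Agent.T2H17.CX

open Pool.Agent.T2H98.RT (b A QS quads S_KAP)
open Pool.Agent.T2H98.RT.VAR1 (kap kap_le kap_le' kap_diag co off log_ne)

variable {q : ℕ}

/-- `∑_{m ≤ M} c_m f(m) m^{-it}` -/
noncomputable def D (f : ℕ → ℂ) (c : ℕ → ℝ) (M : ℕ) (t : ℝ) : ℂ :=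
  ∑ m ∈ Finset.Icc 1 M, (c m : ℂ) * f m * Complex.exp (-(t * Real.log m * Complex.I))

/-- the twisted zeta sum -/
noncomputable def S (f : ℕ → ℂ) (N : ℕ) (t : ℝ) : ℂ :=
  ∑ n ∈ Finset.Icc 1 N, f n * (n : ℂ) ^ (-(1 / 2 : ℂ) - t * Complex.I)

noncomputable def ff (f : ℕ → ℂ) (q : ℕ × ℕ) : ℂ := f q.1 * (starRingEnd ℂ) (f q.2)

lemma sq_D (f : ℕ → ℂ) (c : ℕ → ℝ) (M : ℕ) (t : ℝ) :
    ((‖D f c M t‖ ^ 2 : ℝ) : ℂ) = ∑ q ∈ (Icc 1 M) ×ˢ (Icc 1 M), (c q.1 : ℂ) * c q.2 * ff f q *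
      Complex.exp (-(t * ((Real.log q.1 - Real.log q.2 : ℝ) : ℂ) * Complex.I)) := by
  have h1 : ((‖D f c M t‖ ^ 2 : ℝ) : ℂ) = D f c M t * (starRingEnd ℂ) (D f c M t) := by
    rw [Complex.mul_conj, Complex.normSq_eq_norm_sq]
  rw [h1]
  unfold D
  rw [map_sum, sum_mul_sum, ← sum_product']
  refine sum_congr rfl fun q _ => ?_
  unfold ff
  rw [map_mul, map_mul, ← Complex.exp_conj]
  simp only [map_neg, map_mul, Complex.conj_ofReal, Complex.conj_I]
  have h2 : Complex.exp (-(t * ((Real.log q.1 - Real.log q.2 : ℝ) : ℂ) * Complex.I)) =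
      Complex.exp (-(t * (Real.log q.1 : ℂ) * Complex.I)) * Complex.exp (-(t * (Real.log q.2 : ℂ) * -Complex.I)) := by
    rw [← Complex.exp_add]
    congr 1
    push_cast
    ring
  rw [h2]
  ring

lemma avg (f : ℕ → ℂ) (c : ℕ → ℝ) (M : ℕ) {T : ℝ} (_hT : 0 < T) :
    ((1 / T * (∫ t in (0:ℝ)..T, ‖D f c M t‖ ^ 2) : ℝ) : ℂ) = ∑ q ∈ (Icc 1 M) ×ˢ (Icc 1 M), co c T q * ff f q := by
  rw [Complex.ofReal_mul, ← intervalIntegral.integral_ofReal]
  have h1 : (fun t : ℝ => ((‖D f c M t‖ ^ 2 : ℝ) : ℂ)) = fun t : ℝ => ∑ q ∈ (Icc 1 M) ×ˢ (Icc 1 M),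
      (c q.1 : ℂ) * c q.2 * ff f q *
      Complex.exp (-(t * ((Real.log q.1 - Real.log q.2 : ℝ) : ℂ) * Complex.I)) := by
    funext t
    exact sq_D f c M t
  rw [h1, intervalIntegral.integral_finsetSum]
  · rw [mul_sum]
    refine sum_congr rfl fun q _ => ?_
    rw [intervalIntegral.integral_const_mul]
    unfold co kap
    push_cast
    ring
  · intro q _
    apply Continuous.intervalIntegrable
    fun_prop

lemma diff (f : ℕ → ℂ) (c : ℕ → ℝ) (M : ℕ) (hf : ∀ m ∈ Icc 1 M, ‖f m‖ = 1) {T : ℝ} (hT : 0 < T) :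
    ((1 / T * (∫ t in (0:ℝ)..T, ‖D f c M t‖ ^ 2) - ∑ m ∈ Icc 1 M, c m ^ 2 : ℝ) : ℂ) =
      ∑ q ∈ off M, co c T q * ff f q := by
  rw [Complex.ofReal_sub, avg f c M hT]
  rw [← sum_filter_add_sum_filter_not ((Icc 1 M) ×ˢ (Icc 1 M)) (fun q : ℕ × ℕ => q.1 ≠ q.2)]
  have h1 : ∑ q ∈ ((Icc 1 M) ×ˢ (Icc 1 M)).filter (fun q : ℕ × ℕ => ¬ q.1 ≠ q.2), co c T q * ff f q =
      ((∑ m ∈ Icc 1 M, c m ^ 2 : ℝ) : ℂ) := by
    push_cast
    refine sum_nbij' (fun q => q.1) (fun m => (m, m)) ?_ ?_ ?_ ?_ ?_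
    · intro q hq
      rw [mem_filter, mem_product] at hq
      exact hq.1.1
    · intro m hm
      rw [mem_filter, mem_product]
      exact ⟨⟨hm, hm⟩, by simp⟩
    · rintro ⟨a, b⟩ hq
      rw [mem_filter, mem_product] at hq
      simp only [ne_eq, not_not] at hq
      rw [hq.2]
    · intro m _; rfl
    · rintro ⟨a, b⟩ hq
      rw [mem_filter, mem_product] at hq
      simp only [ne_eq, not_not] at hq
      obtain ⟨hq1, rfl⟩ := hq
      unfold co ff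
      rw [kap_diag hT]
      simp only
      rw [Complex.mul_conj, Complex.normSq_eq_norm_sq, hf a hq1.1]
      push_cast
      ring
  rw [h1]
  unfold off
  ring


lemma g_prod (f : ℕ → ℂ) (hmul : ∀ m n, f (m * n) = f m * f n) (h1 : f 1 = 1) (t : ℝ) {k : ℕ} (v : Fin k → ℕ)
    (s : Finset (Fin k)) : ∏ i ∈ s, (f (v i) * ((v i : ℕ) : ℂ) ^ (-(1 / 2 : ℂ) - t * Complex.I)) =
      f (∏ i ∈ s, v i) * ((∏ i ∈ s, v i : ℕ) : ℂ) ^ (-(1 / 2 : ℂ) - t * Complex.I) := by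
  classical
  induction s using Finset.induction_on with
  | empty =>
    simp only [Finset.prod_empty]
    rw [h1]
    simp
  | insert a s ha ih =>
    rw [Finset.prod_insert ha, Finset.prod_insert ha, ih, hmul, Nat.cast_mul, Complex.natCast_mul_natCast_cpow]
    ring

theorem PWX (f : ℕ → ℂ) (hmul : ∀ m n, f (m * n) = f m * f n) (h1 : f 1 = 1) (k N : ℕ) (t : ℝ) :
    S f N t ^ k = D f (fun m => (b k N m : ℝ) / Real.sqrt m) (N ^ k) t := by
  classical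
  have h0 : S f N t ^ k = ∏ _i : Fin k, ∑ n ∈ Finset.Icc 1 N, f n * (n : ℂ) ^ (-(1 / 2 : ℂ) - t * Complex.I) := by
    rw [Finset.prod_const, Finset.card_univ, Fintype.card_fin]
    rfl
  rw [h0, Finset.prod_univ_sum]
  have hne : ∀ v ∈ Fintype.piFinset (fun _ : Fin k => Finset.Icc 1 N), ∀ i, v i ≠ 0 := by
    intro v hv i
    rw [Fintype.mem_piFinset] at hv
    have := (Finset.mem_Icc.mp (hv i)).1
    omega
  rw [Finset.sum_congr rfl (fun v _ => g_prod f hmul h1 t v Finset.univ)]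
  have hmaps : ∀ v ∈ Fintype.piFinset (fun _ : Fin k => Finset.Icc 1 N), ∏ i, v i ∈ Finset.Icc 1 (N ^ k) := by
    intro v hv
    rw [Finset.mem_Icc]
    constructor
    · exact Nat.one_le_iff_ne_zero.mpr (Finset.prod_ne_zero_iff.mpr fun i _ => hne v hv i)
    · calc ∏ i, v i ≤ ∏ _i : Fin k, N := by
            refine Finset.prod_le_prod' fun i _ => ?_
            rw [Fintype.mem_piFinset] at hv
            exact (Finset.mem_Icc.mp (hv i)).2
        _ = N ^ k := by simp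
  rw [← Finset.sum_fiberwise_of_maps_to hmaps]
  unfold D
  refine Finset.sum_congr rfl fun m hm => ?_
  have hm0 : m ≠ 0 := by
    have := (Finset.mem_Icc.mp hm).1
    omega
  have h3 : ∑ v ∈ (Fintype.piFinset (fun _ : Fin k => Finset.Icc 1 N)).filter (fun v => ∏ i, v i = m),
      f (∏ i, v i) * ((∏ i, v i : ℕ) : ℂ) ^ (-(1 / 2 : ℂ) - t * Complex.I) =
        (b k N m : ℂ) * (f m * (m : ℂ) ^ (-(1 / 2 : ℂ) - t * Complex.I)) := by
    rw [Finset.sum_congr rfl (g := fun _ => f m * (m : ℂ) ^ (-(1 / 2 : ℂ) - t * Complex.I))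
      (fun v hv => by rw [(Finset.mem_filter.mp hv).2]),
      Finset.sum_const, nsmul_eq_mul]
    rfl
  rw [h3, Pool.Agent.T2H98.RT.PW.cpow_eq t m hm0]
  push_cast
  ring

/-- the family -/
structure Fam {Ω : Type} [Fintype Ω] (f : Ω → ℕ → ℂ) (M : ℕ) : Prop where
  mul : ∀ ω m n, f ω (m * n) = f ω m * f ω n
  one : ∀ ω, f ω 1 = 1
  norm : ∀ ω, ∀ m ∈ Icc 1 M, ‖f ω m‖ = 1
  orth : ∀ m n : ℕ, 1 ≤ m → m ≤ M ^ 2 → 1 ≤ n → n ≤ M ^ 2 →
    ∑ ω, f ω m * (starRingEnd ℂ) (f ω n) = if m = n then (Fintype.card Ω : ℂ) else 0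

theorem VARX {Ω : Type} [Fintype Ω] (f : Ω → ℕ → ℂ) (M : ℕ) (hf : Fam f M) (hKAP : S_KAP) (c : ℕ → ℝ)
    (hc : ∀ m, 0 ≤ c m) (T : ℝ) (hT : 0 < T) :
    ∑ ω, (1 / T * (∫ t in (0:ℝ)..T, ‖D (f ω) c M t‖ ^ 2) - ∑ m ∈ Icc 1 M, c m ^ 2) ^ 2 ≤
      (Fintype.card Ω : ℝ) * (2 / T * QS c M) := by
  set L := ∑ ω, (1 / T * (∫ t in (0:ℝ)..T, ‖D (f ω) c M t‖ ^ 2) - ∑ m ∈ Icc 1 M, c m ^ 2) ^ 2 with hL
  have hL0 : 0 ≤ L := Finset.sum_nonneg fun ω _ => sq_nonneg _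
  have hexp : (L : ℂ) = ∑ w ∈ off M ×ˢ off M, co c T w.1 * (starRingEnd ℂ) (co c T w.2) *
        ∑ ω, ff (f ω) w.1 * (starRingEnd ℂ) (ff (f ω) w.2) := by
    rw [hL]
    push_cast
    have h1 : ∀ ω, ((1 / (T : ℂ) * ((∫ t in (0:ℝ)..T, ‖D (f ω) c M t‖ ^ 2 : ℝ) : ℂ) - ∑ m ∈ Icc 1 M, (c m : ℂ) ^ 2) ^ 2) =
        ∑ w ∈ off M ×ˢ off M, (co c T w.1 * (starRingEnd ℂ) (co c T w.2)) *
          (ff (f ω) w.1 * (starRingEnd ℂ) (ff (f ω) w.2)) := by
      intro ω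
      have h2 := diff (f ω) c M (hf.norm ω) hT
      have h3 : ((1 / (T : ℂ) * ((∫ t in (0:ℝ)..T, ‖D (f ω) c M t‖ ^ 2 : ℝ) : ℂ) - ∑ m ∈ Icc 1 M, (c m : ℂ) ^ 2) ^ 2) =
          ((1 / T * (∫ t in (0:ℝ)..T, ‖D (f ω) c M t‖ ^ 2) - ∑ m ∈ Icc 1 M, c m ^ 2 : ℝ) : ℂ) *
          (starRingEnd ℂ) ((1 / T * (∫ t in (0:ℝ)..T, ‖D (f ω) c M t‖ ^ 2) - ∑ m ∈ Icc 1 M, c m ^ 2 : ℝ) : ℂ) := by
        rw [Complex.conj_ofReal]
        push_cast
        ring
      rw [h3, h2, map_sum, sum_mul_sum, ← sum_product']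
      refine sum_congr rfl fun w _ => ?_
      rw [map_mul]
      ring
    rw [Finset.sum_congr rfl (fun ω _ => h1 ω), Finset.sum_comm]
    refine Finset.sum_congr rfl fun w _ => ?_
    rw [Finset.mul_sum]
  have h1 : L = ‖(L : ℂ)‖ := by
    rw [Complex.norm_real, Real.norm_of_nonneg hL0]
  rw [h1, hexp]
  refine (norm_sum_le _ _).trans ?_
  have hkey : ∀ w ∈ off M ×ˢ off M, ‖co c T w.1 * (starRingEnd ℂ) (co c T w.2) *
        ∑ ω, ff (f ω) w.1 * (starRingEnd ℂ) (ff (f ω) w.2)‖ ≤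
        if w.1.1 * w.2.2 = w.2.1 * w.1.2 then
          (Fintype.card Ω : ℝ) * (2 / T) * (c w.1.1 * c w.1.2 * (c w.2.1 * c w.2.2) / |Real.log w.1.1 - Real.log w.1.2|) else 0 := by
    rintro ⟨⟨m, n⟩, ⟨m', n'⟩⟩ hw
    rw [mem_product] at hw
    unfold off at hw
    simp only [mem_filter, mem_product, mem_Icc] at hw
    obtain ⟨⟨⟨⟨a1, a2⟩, b1, b2⟩, hne⟩, ⟨⟨a3, a4⟩, b3, b4⟩, hne'⟩ := hw
    have hor : ∑ ω, ff (f ω) (m, n) * (starRingEnd ℂ) (ff (f ω) (m', n')) =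
        if m * n' = m' * n then (Fintype.card Ω : ℂ) else 0 := by
      rw [← hf.orth (m * n') (m' * n) (Nat.mul_pos (by omega) (by omega)) (by nlinarith) (Nat.mul_pos (by omega) (by omega))
        (by nlinarith)]
      refine Finset.sum_congr rfl fun ω _ => ?_
      rw [hf.mul, hf.mul]
      unfold ff
      simp only [map_mul, Complex.conj_conj]
      ring
    simp only
    rw [hor]
    split_ifs with h
    · rw [norm_mul, norm_mul, RCLike.norm_conj]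
      unfold co
      rw [norm_mul, norm_mul, norm_mul, norm_mul, Complex.norm_real, Complex.norm_real, Complex.norm_real,
        Complex.norm_real]
      simp only
      rw [Real.norm_of_nonneg (hc _), Real.norm_of_nonneg (hc _), Real.norm_of_nonneg (hc _),
        Real.norm_of_nonneg (hc _), Complex.norm_natCast]
      have k1 := kap_le' hKAP hT (m, n) (log_ne a1 b1 hne)
      have k2 := kap_le hKAP hT (m', n')
      simp only at k1
      have hpos : 0 < |Real.log (m : ℝ) - Real.log n| := abs_pos.2 (log_ne a1 b1 hne)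
      have c1 := hc m
      have c2 := hc n
      have c3 := hc m'
      have c4 := hc n'
      calc c m * c n * ‖kap T (m, n)‖ * (c m' * c n' * ‖kap T (m', n')‖) * (Fintype.card Ω : ℝ) ≤
          c m * c n * (2 / (T * |Real.log (m : ℝ) - Real.log n|)) * (c m' * c n' * 1) * (Fintype.card Ω : ℝ) := by
            refine mul_le_mul_of_nonneg_right ?_ (Nat.cast_nonneg _)
            apply mul_le_mul
            · exact mul_le_mul_of_nonneg_left k1 (by positivity)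
            · exact mul_le_mul_of_nonneg_left k2 (by positivity)
            · positivity
            · positivity
        _ = _ := by
            field_simp
    · simp
  refine (sum_le_sum hkey).trans ?_
  rw [← sum_filter, ← mul_sum, mul_assoc]
  apply mul_le_mul_of_nonneg_left _ (by positivity)
  apply mul_le_mul_of_nonneg_left _ (by positivity)
  unfold QS
  apply sum_le_sum_of_subset_of_nonneg
  · rintro ⟨⟨m, n⟩, ⟨m', n'⟩⟩ hw
    unfold off at hw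
    unfold quads
    simp only [mem_filter, mem_product, mem_Icc] at hw ⊢
    exact ⟨⟨hw.1.1.1, hw.1.2.1⟩, hw.2, hw.1.1.2⟩
  · intro w _ _
    have c1 := hc w.1.1
    have c2 := hc w.1.2
    have c3 := hc w.2.1
    have c4 := hc w.2.2
    positivity

end Pool.Agent.T2H17.CX
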