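import Pool.Agent.T2H17.CX.Var
import Pool.Agent.T2H98.RT.VAR
import Pool.Agent.T2H98.RT.QUAD
import Pool.Agent.T2H98.RT.RSB
import Pool.Agent.T2H98.RT.DIV

/-! High moments in `t` for almost all Dirichlet characters: the variance of the moments. -/

set_option autoImplicit false

open MeasureTheory Filter Topology Finset

namespace Pool.Agent.T2H17.CX

open Pool.Agent.T2H98.RT (b A QS quads RS pKAP pQUAD pRSB pDIV)
open Pool.Agent.T2H98.RT.VAR (QS_le harm log_small)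

/-- the moment `(1/T) ∫_0^T |S|^{2k} dt` -/
noncomputable def J (f : ℕ → ℂ) (k N : ℕ) (T : ℝ) : ℝ := 1 / T * ∫ t in (0:ℝ)..T, ‖S f N t‖ ^ (2 * k)

theorem VARF (k : ℕ) (ε : ℝ) (hk : 1 ≤ k) (hε : 0 < ε) : ∃ C : ℝ, 0 < C ∧ ∀ (N : ℕ) (T : ℝ), 1 ≤ N → 1 ≤ T →
    ∀ (Ω : Type) [Fintype Ω] (f : Ω → ℕ → ℂ), Fam f (N ^ k) →
    ∑ ω, (J (f ω) k N T - A k N) ^ 2 ≤ (Fintype.card Ω : ℝ) * (C * (N : ℝ) ^ ε / T) := by
  have hk0 : (0 : ℝ) < k := by exact_mod_cast hk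
  set e1 : ℝ := ε / (8 * k) with he1
  have he1p : 0 < e1 := by positivity
  obtain ⟨C1, hC1, hC1b, _⟩ := pDIV k e1 he1p
  obtain ⟨C2, hC2, hC2b⟩ := log_small k (ε / 8) (by positivity)
  refine ⟨4 * C1 ^ 4 * C2 ^ 4, by positivity, ?_⟩
  intro N T hN hT Ω _ f hf
  have hT0 : 0 < T := by linarith
  have hN1 : (1 : ℝ) ≤ N := by exact_mod_cast hN
  have hN0 : (0 : ℝ) < N := by linarith
  set c : ℕ → ℝ := fun m => (b k N m : ℝ) / Real.sqrt m with hc
  have hcnn : ∀ m, 0 ≤ c m := fun m => by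
    simp only [hc]
    positivity
  have hJ : ∀ ω, J (f ω) k N T = 1 / T * ∫ t in (0:ℝ)..T, ‖D (f ω) c (N ^ k) t‖ ^ 2 := by
    intro ω
    unfold J
    congr 1
    refine intervalIntegral.integral_congr fun t _ => ?_
    change ‖S (f ω) N t‖ ^ (2 * k) = ‖D (f ω) c (N ^ k) t‖ ^ 2
    rw [← PWX (f ω) (hf.mul ω) (hf.one ω) k N t, norm_pow, ← pow_mul, mul_comm k 2]
  have hA : A k N = ∑ m ∈ Icc 1 (N ^ k), c m ^ 2 := by
    unfold A
    refine Finset.sum_congr rfl fun m _ => ?_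
    simp only [hc]
    rw [div_pow, Real.sq_sqrt (Nat.cast_nonneg _)]
  have h1 : ∑ ω, (J (f ω) k N T - A k N) ^ 2 ≤ (Fintype.card Ω : ℝ) * (2 / T * QS c (N ^ k)) := by
    have := VARX f (N ^ k) hf pKAP c hcnn T hT0
    simp_rw [hJ, hA]
    exact this
  have hM1 : 1 ≤ N ^ k := Nat.one_le_pow _ _ hN
  set B : ℝ := C1 * ((N : ℝ) ^ k) ^ e1 with hB
  have hBnn : 0 ≤ B := by positivity
  have hcB : ∀ m ∈ Icc 1 (N ^ k), c m ≤ B * (1 / Real.sqrt m) := by
    intro m hm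
    rw [Finset.mem_Icc] at hm
    simp only [hc]
    rw [div_eq_mul_one_div]
    refine mul_le_mul_of_nonneg_right ?_ (by positivity)
    refine (hC1b N m hm.1).trans ?_
    refine mul_le_mul_of_nonneg_left ?_ hC1.le
    refine Real.rpow_le_rpow (Nat.cast_nonneg _) ?_ he1p.le
    exact_mod_cast hm.2
  have h2 := QS_le c B (N ^ k) hcnn hBnn hcB
  obtain ⟨hH0, hH1⟩ := harm (N ^ k) hM1
  set H : ℝ := ∑ g ∈ Icc 1 (N ^ k), 1 / (g : ℝ) with hH
  have h3 : QS (fun m => 1 / Real.sqrt m) (N ^ k) ≤ 2 * H ^ 4 := by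
    have e2 := pQUAD (N ^ k)
    have e3 := pRSB (N ^ k)
    calc QS (fun m => 1 / Real.sqrt m) (N ^ k) ≤ H ^ 2 * RS (N ^ k) := e2
      _ ≤ H ^ 2 * (2 * H ^ 2) := mul_le_mul_of_nonneg_left e3 (by positivity)
      _ = 2 * H ^ 4 := by ring
  have h4 : H ≤ C2 * (N : ℝ) ^ (ε / 8) := by
    refine hH1.trans ?_
    rw [Nat.cast_pow, Real.log_pow]
    exact hC2b N hN
  have h5 : H ^ 4 ≤ C2 ^ 4 * (N : ℝ) ^ (ε / 2) := by
    calc H ^ 4 ≤ (C2 * (N : ℝ) ^ (ε / 8)) ^ 4 := pow_le_pow_left₀ hH0 h4 4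
      _ = C2 ^ 4 * ((N : ℝ) ^ (ε / 8)) ^ 4 := by ring
      _ = C2 ^ 4 * (N : ℝ) ^ (ε / 2) := by
          rw [← Real.rpow_natCast ((N : ℝ) ^ (ε / 8)) 4, ← Real.rpow_mul hN0.le]
          congr 2
          push_cast
          ring
  have h6 : B ^ 4 = C1 ^ 4 * (N : ℝ) ^ (ε / 2) := by
    rw [hB, mul_pow]
    congr 1
    rw [← Real.rpow_natCast (N : ℝ) k, ← Real.rpow_mul hN0.le, ← Real.rpow_natCast _ 4, ← Real.rpow_mul hN0.le]
    congr 1
    rw [he1]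
    push_cast
    field_simp
    ring
  have h7 : (N : ℝ) ^ (ε / 2) * (N : ℝ) ^ (ε / 2) = (N : ℝ) ^ ε := by
    rw [← Real.rpow_add hN0]
    congr 1
    ring
  refine h1.trans (mul_le_mul_of_nonneg_left ?_ (Nat.cast_nonneg _))
  calc 2 / T * QS c (N ^ k) ≤ 2 / T * (B ^ 4 * (2 * H ^ 4)) := by
        refine mul_le_mul_of_nonneg_left ?_ (by positivity)
        exact h2.trans (mul_le_mul_of_nonneg_left h3 (by positivity))
    _ ≤ 2 / T * ((C1 ^ 4 * (N : ℝ) ^ (ε / 2)) * (2 * (C2 ^ 4 * (N : ℝ) ^ (ε / 2)))) := by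
        rw [h6]
        refine mul_le_mul_of_nonneg_left ?_ (by positivity)
        refine mul_le_mul_of_nonneg_left ?_ (by positivity)
        linarith
    _ = 4 * C1 ^ 4 * C2 ^ 4 * ((N : ℝ) ^ (ε / 2) * (N : ℝ) ^ (ε / 2)) / T := by ring
    _ = 4 * C1 ^ 4 * C2 ^ 4 * (N : ℝ) ^ ε / T := by rw [h7]

/-- the Dirichlet characters modulo a large prime -/
theorem famChar (q : ℕ) [Fact q.Prime] (M : ℕ) (hM : M ^ 2 < q) :
    Fam (fun (χ : DirichletCharacter ℂ q) (n : ℕ) => χ (n : ZMod q)) M := by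
  have hq := (Fact.out : q.Prime)
  have hcast : ∀ m n : ℕ, m < q → n < q → ((m : ZMod q) = (n : ZMod q) ↔ m = n) := by
    intro m n hm hn
    rw [ZMod.natCast_eq_natCast_iff', Nat.mod_eq_of_lt hm, Nat.mod_eq_of_lt hn]
  have hunit : ∀ m : ℕ, 1 ≤ m → m < q → IsUnit (m : ZMod q) := by
    intro m hm hmq
    rw [isUnit_iff_ne_zero]
    intro h0
    have := (hcast m 0 hmq hq.pos).mp (by rw [h0]; simp)
    omega
  have hnorm : ∀ (χ : DirichletCharacter ℂ q) (m : ℕ), 1 ≤ m → m < q → ‖χ (m : ZMod q)‖ = 1 := by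
    intro χ m hm hmq
    obtain ⟨u, hu⟩ := hunit m hm hmq
    rw [← hu]
    exact DirichletCharacter.unit_norm_eq_one χ u
  refine ⟨?_, ?_, ?_, ?_⟩
  · intro χ m n
    rw [Nat.cast_mul, map_mul]
  · intro χ
    rw [Nat.cast_one, map_one]
  · intro χ m hm
    rw [Finset.mem_Icc] at hm
    refine hnorm χ m hm.1 ?_
    have : M ≤ M ^ 2 := Nat.le_self_pow (by norm_num) M
    omega
  · intro m n hm hmM hn hnM
    have h1 := DirichletCharacter.sum_char_inv_mul_char_eq ℂ (n := q) (hunit n hn (by omega)) (m : ZMod q)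
    have h2 : ∀ χ : DirichletCharacter ℂ q, χ ((n : ZMod q))⁻¹ = (starRingEnd ℂ) (χ (n : ZMod q)) := by
      intro χ
      have hn1 := hnorm χ n hn (by omega)
      have hu := hunit n hn (by omega)
      have h3 : χ ((n : ZMod q))⁻¹ * χ (n : ZMod q) = 1 := by
        rw [← map_mul, ZMod.inv_mul_of_unit _ hu, map_one]
      have h4 : (starRingEnd ℂ) (χ (n : ZMod q)) * χ (n : ZMod q) = 1 := by
        rw [mul_comm, Complex.mul_conj, Complex.normSq_eq_norm_sq, hn1]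
        simp
      have h5 : χ (n : ZMod q) ≠ 0 := by
        intro h0
        rw [h0, norm_zero] at hn1
        norm_num at hn1
      exact mul_right_cancel₀ h5 (h3.trans h4.symm)
    rw [Finset.sum_congr rfl (g := fun χ : DirichletCharacter ℂ q => χ ((n : ZMod q))⁻¹ * χ (m : ZMod q))
      (fun χ _ => by rw [h2 χ, mul_comm])]
    rw [h1]
    have hcard : (Fintype.card (DirichletCharacter ℂ q) : ℂ) = (q.totient : ℂ) := by
      rw [← DirichletCharacter.card_eq_totient_of_hasEnoughRootsOfUnity ℂ q, Nat.card_eq_fintype_card]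
    rw [hcard]
    have h6 := hcast n m (by omega) (by omega)
    by_cases hmn : m = n
    · rw [if_pos (h6.mpr hmn.symm), if_pos hmn]
    · rw [if_neg (fun h => hmn (h6.mp h).symm), if_neg hmn]

end Pool.Agent.T2H17.CX
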